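import Pool.Agent.H56.G3.TS
import Pool.Agent.H10.N4D.STR

/-!
# Row SW of the board gs3: the choice of the stretch
-/

set_option autoImplicit false

open Finset
open Pool.Agent.H6.N4D Pool.Agent.H93.EB Pool.Agent.H93.GS Pool.Agent.H56.G3

namespace Pool.Agent.H4.G3

/-- harmonic sums -/
theorem SW_harm (p q : ℕ) (hp : 1 ≤ p) (hpq : p ≤ q) :
    ∑ n ∈ Ico p q, 1 / (n : ℝ) ≤ 1 / p + Real.log q - Real.log p - 1 / q := by
  induction q, hpq using Nat.le_induction with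
  | base => simp
  | succ q hpq ih =>
    rw [Finset.sum_Ico_succ_top hpq]
    have hq0 : (0 : ℝ) < q := by exact_mod_cast (by omega : 0 < q)
    have h1 := Real.one_sub_inv_le_log_of_pos (x := ((q : ℝ) + 1) / q) (by positivity)
    rw [Real.log_div (by positivity) hq0.ne', inv_div] at h1
    have h2 : 1 - (q : ℝ) / (q + 1) = 1 / (q + 1) := by
      field_simp
      ring
    rw [h2] at h1
    push_cast
    linarith

theorem SW_U {U : ℕ → ℝ} {A : ℝ} (hA : 0 ≤ A) (hU : ∀ n, U n ≤ A) (p q : ℕ) (hp : 1 ≤ p)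
    (hpq : p ≤ q) : ∑ n ∈ Ico p q, U n / n ≤ A * (1 + Real.log q - Real.log p) := by
  have h1 : ∑ n ∈ Ico p q, U n / n ≤ A * ∑ n ∈ Ico p q, 1 / (n : ℝ) := by
    rw [Finset.mul_sum]
    refine Finset.sum_le_sum fun n _ => ?_
    rw [mul_one_div]
    exact div_le_div_of_nonneg_right (hU n) (Nat.cast_nonneg n)
  refine h1.trans (mul_le_mul_of_nonneg_left ?_ hA)
  have h2 := SW_harm p q hp hpq
  have h3 : 1 / (p : ℝ) ≤ 1 := by
    have : (1 : ℝ) ≤ p := by exact_mod_cast hp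
    rw [div_le_one (by linarith)]
    exact this
  have h4 : 0 ≤ 1 / (q : ℝ) := by positivity
  linarith

theorem SW_tel (f : ℕ → ℕ) (hf : ∀ i, f i ≤ f (i + 1)) (g : ℕ → ℝ) (m : ℕ) :
    f 0 ≤ f m ∧ ∑ i ∈ range m, ∑ n ∈ Ico (f i) (f (i + 1)), g n =
      ∑ n ∈ Ico (f 0) (f m), g n := by
  induction m with
  | zero => simp
  | succ m ih =>
    refine ⟨ih.1.trans (hf m), ?_⟩
    rw [Finset.sum_range_succ, ih.2, Finset.sum_Ico_consecutive _ ih.1 (hf m)]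

theorem SW_fl {x : ℝ} (hx : 2 ≤ x) : 1 ≤ ⌊x⌋₊ ∧ Real.log x - 1 ≤ Real.log (⌊x⌋₊ : ℝ) := by
  have h1 : 1 ≤ ⌊x⌋₊ := by
    rw [Nat.one_le_floor_iff]
    linarith
  refine ⟨h1, ?_⟩
  have h2 : x < (⌊x⌋₊ : ℝ) + 1 := Nat.lt_floor_add_one x
  have h3 : (1 : ℝ) ≤ ⌊x⌋₊ := by exact_mod_cast h1
  have h4 : x ≤ 2 * (⌊x⌋₊ : ℝ) := by linarith
  have h5 : Real.log x ≤ Real.log 2 + Real.log (⌊x⌋₊ : ℝ) := by
    rw [← Real.log_mul (by norm_num) (by linarith)]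
    exact Real.log_le_log (by linarith) h4
  have := Real.log_two_lt_d9
  linarith

/-- one scale -/
theorem SW_one (K r : ℕ) (A c : ℝ) (hK : 1 ≤ K) (hA : 0 ≤ A) (hc : 0 < c) :
    ∃ Y₀ : ℝ, 1 ≤ Y₀ ∧ ∀ (Y : ℝ) (k : ℕ) (U : ℕ → ℝ), Y₀ ≤ Y → (∀ n, U n ≤ A) → r ≤ k →
      Real.log Y ^ (24 / 25 : ℝ) ≤ k → (2 : ℝ) ^ k ≤ Y ^ (1 / 8 : ℝ) →
      (∀ S : Par, S.X = Y → Str3 S K r k → sS S U < c / 2 * (S.N * S.h)) →
      ∑ n ∈ Ico ⌊Y ^ (1 / 2 : ℝ)⌋₊ ⌊Y⌋₊, U n / n ≤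
        c / 4 * Real.log Y + A * (13 * K * LL Y + 10) := by
  have hKr : (1 : ℝ) ≤ K := by exact_mod_cast hK
  have hrr : (0 : ℝ) ≤ r := Nat.cast_nonneg r
  have e1 : ∀ᶠ X : ℝ in Filter.atTop, 2 ≤ LL X := tendsto_LL.eventually_ge_atTop 2
  have hall := e1.and ((Pool.Agent.H10.N4D.ev2 K hKr).and
    ((Pool.Agent.H10.N4D.ev3 (2 * K + r + 1) (by linarith)).and
      (Filter.eventually_ge_atTop (1 : ℝ))))
  rw [Filter.eventually_atTop] at hall
  obtain ⟨X₀, hX₀⟩ := hall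
  refine ⟨max X₀ 1, le_max_right _ _, ?_⟩
  intro Y k U hY hU hrk hk1 hk2 hS
  obtain ⟨f1, f2, f3, f4⟩ := hX₀ Y ((le_max_left _ _).trans hY)
  have hYp : 0 < Y := by linarith
  obtain ⟨ℓ, hℓ⟩ : ∃ ℓ, ℓ = Real.log Y := ⟨_, rfl⟩
  obtain ⟨L, hL⟩ : ∃ L, L = LL Y := ⟨_, rfl⟩
  rw [← hℓ] at f2 f3 hk1
  rw [← hL] at f1 f2 f3
  rw [← hℓ, ← hL]
  have hexpℓ : Real.exp ℓ = Y := by rw [hℓ]; exact Real.exp_log hYp
  have hKL : 0 < K * L := by positivity
  have hKL2 : 2 ≤ K * L := by nlinarith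
  have hℓ60 : 780 ≤ ℓ := by linarith
  -- the mesh
  obtain ⟨J, hJ⟩ := pow_unbounded_of_one_lt (Y ^ 5) (one_lt_two (α := ℝ))
  have hlog2 : 0 < Real.log 2 := Real.log_pos one_lt_two
  have hlog2l : 1 / 2 ≤ Real.log 2 := by
    have := Real.log_two_gt_d9
    linarith
  have hlog2' : Real.log 2 ≤ 1 := by
    have := Real.log_two_lt_d9
    linarith
  have h2J : (0 : ℝ) < 2 ^ J := by positivity
  obtain ⟨h, hh⟩ : ∃ h, h = Real.log 2 / 2 ^ J := ⟨_, rfl⟩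
  have hh0 : 0 < h := by rw [hh]; positivity
  have hhJ : h * 2 ^ J = Real.log 2 := by rw [hh]; field_simp
  have hh5 : h * Y ^ 5 ≤ 1 := by
    calc h * Y ^ 5 ≤ h * 2 ^ J := mul_le_mul_of_nonneg_left hJ.le hh0.le
      _ = Real.log 2 := hhJ
      _ ≤ 1 := hlog2'
  have hh1 : h ≤ 1 := by
    have h1 : 1 ≤ Y ^ 5 := one_le_pow₀ f4
    have h2 : h * 1 ≤ h * Y ^ 5 := mul_le_mul_of_nonneg_left h1 hh0.le
    linarith
  -- the number of the steps
  obtain ⟨N', hN'⟩ : ∃ N' : ℕ, N' = ⌈12.5 * (K * L) / h⌉₊ := ⟨_, rfl⟩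
  have hN1 : 12.5 * (K * L) ≤ N' * h := by
    have h1 : 12.5 * (K * L) / h ≤ N' := by rw [hN']; exact Nat.le_ceil _
    rwa [div_le_iff₀ hh0] at h1
  have hN2 : N' * h ≤ 12.5 * (K * L) + h := by
    have h1 : (N' : ℝ) < 12.5 * (K * L) / h + 1 := by
      rw [hN']; exact Nat.ceil_lt_add_one (by positivity)
    have h2 : (N' : ℝ) * h ≤ (12.5 * (K * L) / h + 1) * h :=
      mul_le_mul_of_nonneg_right h1.le hh0.le
    have h3 : (12.5 * (K * L) / h + 1) * h = 12.5 * (K * L) + h := by field_simp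
    linarith
  obtain ⟨D, hD⟩ : ∃ D, D = (N' : ℝ) * h := ⟨_, rfl⟩
  rw [← hD] at hN1 hN2
  have hD1 : 12 * (K * L) ≤ D := by linarith
  have hD2 : D ≤ 13 * (K * L) := by linarith
  have hD0 : 0 < D := by linarith
  -- the first point
  obtain ⟨a₀, ha₀⟩ : ∃ a₀ : ℤ, a₀ = ⌈(ℓ / 2) / h⌉ := ⟨_, rfl⟩
  have ha1 : ℓ / 2 ≤ h * a₀ := by
    have h1 : (ℓ / 2) / h ≤ a₀ := by rw [ha₀]; exact Int.le_ceil _
    rw [div_le_iff₀ hh0] at h1
    linarith
  have ha2 : h * a₀ ≤ ℓ / 2 + h := by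
    have h1 : (a₀ : ℝ) < (ℓ / 2) / h + 1 := by rw [ha₀]; exact Int.ceil_lt_add_one _
    have h2 : (a₀ : ℝ) * h ≤ ((ℓ / 2) / h + 1) * h := mul_le_mul_of_nonneg_right h1.le hh0.le
    have h3 : ((ℓ / 2) / h + 1) * h = ℓ / 2 + h := by field_simp
    linarith
  -- the number of the stretches
  obtain ⟨m, hm⟩ : ∃ m : ℕ, m = ⌊(ℓ / 2 - 1) / D⌋₊ := ⟨_, rfl⟩
  have hm1 : (m : ℝ) * D ≤ ℓ / 2 - 1 := by
    have h1 : (m : ℝ) ≤ (ℓ / 2 - 1) / D := by
      rw [hm]; exact Nat.floor_le (by apply div_nonneg <;> linarith)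
    rwa [le_div_iff₀ (by linarith)] at h1
  have hm2 : ℓ / 2 - 1 ≤ m * D + D := by
    have h1 : (ℓ / 2 - 1) / D < m + 1 := by rw [hm]; exact Nat.lt_floor_add_one _
    rw [div_lt_iff₀ (by linarith)] at h1
    linarith
  -- the stretches
  obtain ⟨a, ha⟩ : ∃ a : ℕ → ℤ, a = fun i : ℕ => a₀ + (i : ℤ) * (N' : ℤ) := ⟨_, rfl⟩
  have har : ∀ i, h * (a i : ℝ) = h * a₀ + i * D := by
    intro i
    rw [ha, hD]
    push_cast
    ring
  obtain ⟨x, hx⟩ : ∃ x : ℕ → ℝ, x = fun i => Real.exp (h * (a i : ℝ)) := ⟨_, rfl⟩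
  have hxe : ∀ i, x i = Real.exp (h * a₀ + i * D) := fun i => by rw [hx]; simp only [har]
  have hxs : ∀ i, x (i + 1) = x i * Real.exp D := by
    intro i
    rw [hxe, hxe, ← Real.exp_add]
    congr 1
    push_cast
    ring
  have hY12 : Y ^ (1 / 2 : ℝ) = Real.exp (ℓ / 2) := by
    rw [Real.rpow_def_of_pos hYp, ← hℓ]
    congr 1
    ring
  have hx1 : ∀ i, Real.exp (ℓ / 2) ≤ x i := by
    intro i
    rw [hxe]
    apply Real.exp_le_exp.2
    have : 0 ≤ (i : ℝ) * D := by positivity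
    linarith
  have hx2 : ∀ i ≤ m, x i ≤ Y := by
    intro i hi
    rw [← hexpℓ, hxe]
    apply Real.exp_le_exp.2
    have h2 : (i : ℝ) ≤ m := by exact_mod_cast hi
    have h3 : (i : ℝ) * D ≤ m * D := mul_le_mul_of_nonneg_right h2 hD0.le
    linarith
  have hxpos : ∀ i, 0 < x i := fun i => by rw [hxe]; exact Real.exp_pos _
  -- the conditions
  have hNh : ∀ i, (((a (i + 1) : ℤ) : ℝ) - (a i : ℝ)) * h = D := by
    intro i
    rw [ha, hD]
    push_cast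
    ring
  have hkey : Real.exp (100 * (K * L)) * (8 * Real.exp D) ≤ 2 ^ (k - r) := by
    have h1 : (2 : ℝ) ^ (k - r) = Real.exp (((k : ℝ) - r) * Real.log 2) := by
      rw [← Nat.cast_sub hrk, mul_comm, Real.exp_mul, Real.exp_log two_pos, Real.rpow_natCast]
    have h2 : Real.exp (100 * (K * L)) * (8 * Real.exp D) =
        Real.exp (100 * (K * L) + (Real.log 8 + D)) := by
      rw [Real.exp_add, Real.exp_add, Real.exp_log (by norm_num)]
    rw [h1, h2]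
    apply Real.exp_le_exp.2
    have h3 : Real.log 8 ≤ 7 := by
      have := Real.log_le_sub_one_of_pos (x := 8) (by norm_num)
      linarith
    have h4 : 0 ≤ Real.log 8 := Real.log_nonneg (by norm_num)
    have h5 : (113 * (2 * K + r + 1) * L : ℝ) = 226 * (K * L) + 113 * (r * L) + 113 * L := by
      ring
    rw [h5] at f3
    have h6 : (r : ℝ) * 2 ≤ r * L := mul_le_mul_of_nonneg_left f1 hrr
    have h7 : (r : ℝ) ≤ k := by exact_mod_cast hrk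
    have h8 : ((k : ℝ) - r) * (1 / 2) ≤ (k - r) * Real.log 2 :=
      mul_le_mul_of_nonneg_left hlog2l (by linarith)
    linarith
  have hY14 : Y ^ (1 / 4 : ℝ) = Real.exp (ℓ / 4) := by
    rw [Real.rpow_def_of_pos hYp, ← hℓ]
    congr 1
    ring
  have hY18 : Y ^ (1 / 8 : ℝ) = Real.exp (ℓ / 8) := by
    rw [Real.rpow_def_of_pos hYp, ← hℓ]
    congr 1
    ring
  have h2kr : (2 : ℝ) ^ (k - r) ≤ Real.exp (ℓ / 8) := by
    rw [← hY18]
    refine le_trans ?_ hk2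
    exact pow_le_pow_right₀ one_le_two (Nat.sub_le k r)
  have hstr : ∀ i < m, Str3 ⟨Y, h, 2 ^ (k - r) / (8 * x (i + 1)), J, K, a i, a (i + 1)⟩ K r k := by
    intro i hi
    have hxi := hxpos (i + 1)
    have hx0 : x i = Real.exp (h * (a i : ℝ)) := by rw [hx]
    have hx1' : x (i + 1) = Real.exp (h * (a (i + 1) : ℝ)) := by rw [hx]
    refine ⟨⟨f4, hK, hh0, hhJ, hh5, ?_, ?_, ?_, ?_, ?_, ?_⟩, rfl, ?_, ?_, hrk, ?_, hk2, ?_⟩
    · show 12 * (K : ℝ) * LL Y ≤ (((a (i + 1) : ℤ) : ℝ) - (a i : ℝ)) * h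
      rw [hNh, ← hL]
      linarith
    · show (((a (i + 1) : ℤ) : ℝ) - (a i : ℝ)) * h ≤ 13 * (K : ℝ) * LL Y
      rw [hNh, ← hL]
      linarith
    · show 0 < 2 ^ (k - r) / (8 * x (i + 1))
      positivity
    · show 2 ^ (k - r) / (8 * x (i + 1)) * Y ^ (1 / 4 : ℝ) ≤ 1
      rw [div_mul_eq_mul_div, div_le_one (by positivity), hY14]
      have h1 : (2 : ℝ) ^ (k - r) * Real.exp (ℓ / 4) ≤ Real.exp (ℓ / 8) * Real.exp (ℓ / 4) :=
        mul_le_mul_of_nonneg_right h2kr (Real.exp_pos _).le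
      have h2 : Real.exp (ℓ / 8) * Real.exp (ℓ / 4) ≤ Real.exp (ℓ / 2) := by
        rw [← Real.exp_add]
        apply Real.exp_le_exp.2
        linarith
      have h3 := hx1 (i + 1)
      linarith
    · show PP Y ^ (100 * K) ≤ 2 ^ (k - r) / (8 * x (i + 1)) * Real.exp (h * (a i : ℝ))
      rw [← hx0, PP_pow, ← hL]
      have h1 := hxpos i
      have h2 : 2 ^ (k - r) / (8 * x (i + 1)) * x i = 2 ^ (k - r) / (8 * Real.exp D) := by
        rw [hxs]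
        have h3 := Real.exp_pos D
        field_simp
      rw [h2, le_div_iff₀ (by positivity)]
      refine le_trans (le_of_eq ?_) hkey
      congr 2
      push_cast
      ring
    · show Real.exp (h * (a (i + 1) : ℝ)) ≤ Y
      rw [← hx1']
      exact hx2 (i + 1) hi
    · show Y ^ (1 / 2 : ℝ) ≤ Real.exp (h * (a i : ℝ))
      rw [← hx0, hY12]
      exact hx1 i
    · show 2 ^ (k - r) / (8 * x (i + 1)) * (8 * Real.exp (h * (a (i + 1) : ℝ))) = 2 ^ (k - r)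
      rw [← hx1']
      field_simp
    · show Real.log Y ^ (24 / 25 : ℝ) ≤ k
      rw [← hℓ]
      exact hk1
    · show 25 / 2 * (K : ℝ) * LL Y ≤ (((a (i + 1) : ℤ) : ℝ) - (a i : ℝ)) * h
      rw [hNh, ← hL]
      linarith
  have hsmall : ∀ i < m, ∑ n ∈ Ico ⌊x i⌋₊ ⌊x (i + 1)⌋₊, U n / n ≤ c / 2 * D := by
    intro i hi
    have h1 := hS _ rfl (hstr i hi)
    have h2 : sS ⟨Y, h, 2 ^ (k - r) / (8 * x (i + 1)), J, K, a i, a (i + 1)⟩ U =
        ∑ n ∈ Ico ⌊x i⌋₊ ⌊x (i + 1)⌋₊, U n / n := by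
      rw [hx]
      rfl
    have h3 : (Par.N ⟨Y, h, 2 ^ (k - r) / (8 * x (i + 1)), J, K, a i, a (i + 1)⟩) * h = D :=
      hNh i
    rw [h2] at h1
    refine h1.le.trans (le_of_eq ?_)
    show c / 2 * (_ * h) = _
    rw [h3]
  -- the sum
  have hmon : ∀ i, ⌊x i⌋₊ ≤ ⌊x (i + 1)⌋₊ := by
    intro i
    apply Nat.floor_le_floor
    rw [hxs]
    exact le_mul_of_one_le_right (hxpos i).le (Real.one_le_exp hD0.le)
  obtain ⟨t1, t2⟩ := SW_tel (fun i => ⌊x i⌋₊) hmon (fun n => U n / n) m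
  have hmid : ∑ n ∈ Ico ⌊x 0⌋₊ ⌊x m⌋₊, U n / n ≤ m * (c / 2 * D) := by
    rw [← t2]
    refine (Finset.sum_le_card_nsmul (range m) _ (c / 2 * D) fun i hi => ?_).trans (le_of_eq ?_)
    · exact hsmall i (Finset.mem_range.1 hi)
    · rw [Finset.card_range, nsmul_eq_mul]
  have hmid2 : (m : ℝ) * (c / 2 * D) ≤ c / 4 * ℓ := by
    have h1 : c / 2 * (m * D) ≤ c / 2 * (ℓ / 2 - 1) :=
      mul_le_mul_of_nonneg_left hm1 (by positivity)
    have h2 : (m : ℝ) * (c / 2 * D) = c / 2 * (m * D) := by ring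
    rw [h2]
    linarith
  have h2e : 2 ≤ Real.exp (ℓ / 2) := by
    have := Real.add_one_le_exp (ℓ / 2)
    linarith
  obtain ⟨p1, p2⟩ := SW_fl h2e
  rw [Real.log_exp] at p2
  have hx0a : Real.exp (ℓ / 2) ≤ x 0 := hx1 0
  have hfirst : ∑ n ∈ Ico ⌊Real.exp (ℓ / 2)⌋₊ ⌊x 0⌋₊, U n / n ≤ A * 3 := by
    refine (SW_U hA hU _ _ p1 (Nat.floor_le_floor hx0a)).trans
      (mul_le_mul_of_nonneg_left ?_ hA)
    have h1 : Real.log (⌊x 0⌋₊ : ℝ) ≤ Real.log (x 0) := by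
      refine Real.log_le_log ?_ (Nat.floor_le (hxpos 0).le)
      exact_mod_cast p1.trans (Nat.floor_le_floor hx0a)
    have h2 : Real.log (x 0) = h * a₀ := by
      rw [hxe, Real.log_exp]
      push_cast
      ring
    linarith
  have hxmY := hx2 m le_rfl
  obtain ⟨q1, q2⟩ := SW_fl (x := x m) (h2e.trans (hx1 m))
  have hlast : ∑ n ∈ Ico ⌊x m⌋₊ ⌊Y⌋₊, U n / n ≤ A * (13 * K * L + 3) := by
    refine (SW_U hA hU _ _ q1 (Nat.floor_le_floor hxmY)).trans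
      (mul_le_mul_of_nonneg_left ?_ hA)
    have h1 : Real.log (⌊Y⌋₊ : ℝ) ≤ ℓ := by
      rw [hℓ]
      refine Real.log_le_log ?_ (Nat.floor_le hYp.le)
      exact_mod_cast q1.trans (Nat.floor_le_floor hxmY)
    have h2 : Real.log (x m) = h * a₀ + m * D := by rw [hxe, Real.log_exp]
    rw [h2] at q2
    linarith
  rw [hY12, ← Finset.sum_Ico_consecutive _ (Nat.floor_le_floor hx0a)
    (t1.trans (Nat.floor_le_floor hxmY)), ← Finset.sum_Ico_consecutive _ t1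
    (Nat.floor_le_floor hxmY)]
  have hfin : A * (13 * K * L + 10) = A * 3 + A * (13 * K * L + 3) + A * 4 := by ring
  rw [hfin]
  have hA4 : 0 ≤ A * 4 := by positivity
  linarith

theorem SW_ev (C s ε : ℝ) (hs : s < 1) (hε : 0 < ε) :
    ∀ᶠ l : ℝ in Filter.atTop, C * l ^ s ≤ ε * l := by
  have h1 : Filter.Tendsto (fun l : ℝ => l ^ (-(1 - s))) Filter.atTop (nhds 0) :=
    tendsto_rpow_neg_atTop (by linarith)
  have h2 : ∀ᶠ l : ℝ in Filter.atTop, l ^ (-(1 - s)) < ε / (|C| + 1) :=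
    h1.eventually_lt_const (by positivity)
  filter_upwards [h2, Filter.eventually_gt_atTop (0 : ℝ)] with l h2 h3
  have h4 : l ^ s = l * l ^ (-(1 - s)) := by
    rw [show s = 1 + (-(1 - s)) by ring, Real.rpow_add h3, Real.rpow_one]
    ring_nf
  have h5 : C ≤ |C| + 1 := by linarith [le_abs_self C]
  have h6 : 0 ≤ l ^ s := Real.rpow_nonneg h3.le _
  have h7 : (0 : ℝ) < |C| + 1 := by positivity
  calc C * l ^ s ≤ (|C| + 1) * l ^ s := mul_le_mul_of_nonneg_right h5 h6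
    _ = (|C| + 1) * (l * l ^ (-(1 - s))) := by rw [← h4]
    _ ≤ (|C| + 1) * (l * (ε / (|C| + 1))) :=
      mul_le_mul_of_nonneg_left (mul_le_mul_of_nonneg_left h2.le h3.le) h7.le
    _ = ε * l := by field_simp

theorem pf_SW : T_SW := by
  classical
  intro K r A c hK hA hc
  have hA0 : 0 ≤ A := by linarith
  obtain ⟨jm, hjm⟩ := exists_pow_lt_of_lt_one (show 0 < c / (8 * A) by positivity)
    (show (1 / 2 : ℝ) < 1 by norm_num)
  obtain ⟨Y₀, hY₀1, hone⟩ := SW_one K r A c hK hA0 hc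
  refine ⟨jm, fun X₁ => ?_⟩
  have hpj : (0 : ℝ) < (1 / 2) ^ jm := by positivity
  have hpj1 : (0 : ℝ) < (1 / 2) ^ (jm + 1) := by positivity
  have E1 : ∀ᶠ l : ℝ in Filter.atTop, max Y₀ X₁ ≤ Real.exp (l * (1 / 2) ^ jm) :=
    (Real.tendsto_exp_atTop.comp (Filter.tendsto_id.atTop_mul_const hpj)).eventually_ge_atTop _
  have E2 : ∀ᶠ l : ℝ in Filter.atTop, 2 ≤ Real.exp (l * (1 / 2) ^ (jm + 1)) :=
    (Real.tendsto_exp_atTop.comp (Filter.tendsto_id.atTop_mul_const hpj1)).eventually_ge_atTop _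
  have E3 : ∀ᶠ l : ℝ in Filter.atTop, max 1 (r : ℝ) ≤ l ^ (24 / 25 : ℝ) :=
    (tendsto_rpow_atTop (by norm_num)).eventually_ge_atTop _
  have E4 := SW_ev 2 (24 / 25) ((1 / 2) ^ jm / 8) (by norm_num) (by positivity)
  have E5 := SW_ev (((jm : ℝ) + 1) * A * (13 * K)) (19 / 20) (c / 16) (by norm_num)
    (by positivity)
  have E6 := Filter.eventually_ge_atTop ((2 * A + ((jm : ℝ) + 1) * A * 10) / (c / 16))
  have hall := E1.and (E2.and (E3.and (E4.and (E5.and (E6.and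
    (Filter.eventually_ge_atTop (1 : ℝ)))))))
  rw [Filter.eventually_atTop] at hall
  obtain ⟨l₀, hl₀⟩ := hall
  refine ⟨⌈Real.exp l₀⌉₊, fun X U hX hU hlg => ?_⟩
  have hX1 : Real.exp l₀ ≤ X := (Nat.le_ceil _).trans (by exact_mod_cast hX)
  have hX0 : (0 : ℝ) < X := (Real.exp_pos _).trans_le hX1
  obtain ⟨l, hl⟩ : ∃ l, l = Real.log X := ⟨_, rfl⟩
  have hll : l₀ ≤ l := by
    rw [hl, Real.le_log_iff_exp_le hX0]
    exact hX1
  obtain ⟨g1, g2, g3, g4, g5, g6, g7⟩ := hl₀ l hll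
  rw [div_le_iff₀ (by positivity)] at g6
  rw [← hl] at hlg
  by_contra hno
  push Not at hno
  -- the scales
  obtain ⟨Z, hZ⟩ : ∃ Z : ℕ → ℝ, Z = fun j => (X : ℝ) ^ ((1 / 2 : ℝ) ^ j) := ⟨_, rfl⟩
  have hZe : ∀ j, Z j = Real.exp (l * (1 / 2) ^ j) := by
    intro j
    rw [hZ]
    simp only
    rw [Real.rpow_def_of_pos hX0, ← hl]
  have hZl : ∀ j, Real.log (Z j) = l * (1 / 2) ^ j := fun j => by rw [hZe, Real.log_exp]
  have hZh : ∀ j, Z j ^ (1 / 2 : ℝ) = Z (j + 1) := by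
    intro j
    rw [hZe, hZe, ← Real.exp_mul]
    congr 1
    ring
  have hpow : ∀ j ≤ jm, (1 / 2 : ℝ) ^ jm ≤ (1 / 2) ^ j := fun j hj =>
    pow_le_pow_of_le_one (by norm_num) (by norm_num) hj
  have hl0 : 0 ≤ l := by linarith
  have hkt1 : l ^ (24 / 25 : ℝ) ≤ kt X := by
    have h1 : 2 * l ^ (24 / 25 : ℝ) < (kt X : ℝ) + 1 := by
      unfold kt
      rw [← hl]
      exact Nat.lt_floor_add_one _
    have h2 := (le_max_left _ _).trans g3
    linarith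
  have hkt2 : (kt X : ℝ) ≤ 2 * l ^ (24 / 25 : ℝ) := by
    unfold kt
    rw [← hl]
    exact Nat.floor_le (by positivity)
  have hrk : r ≤ kt X := by
    have h2 := ((le_max_right _ _).trans g3).trans hkt1
    exact_mod_cast h2
  have hlj : ∀ j, l * (1 / 2) ^ j ≤ l := by
    intro j
    have h1 : (1 / 2 : ℝ) ^ j ≤ 1 := pow_le_one₀ (by norm_num) (by norm_num)
    have h2 := mul_le_mul_of_nonneg_left h1 hl0
    linarith
  obtain ⟨W, hW⟩ : ∃ W, W = A * (13 * K * l ^ (19 / 20 : ℝ) + 10) := ⟨_, rfl⟩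
  have hstep : ∀ j ≤ jm, ∑ n ∈ Ico ⌊Z (j + 1)⌋₊ ⌊Z j⌋₊, U n / n ≤
      c / 4 * (l * (1 / 2) ^ j) + W := by
    intro j hj
    have h0 : l * (1 / 2) ^ jm ≤ l * (1 / 2) ^ j := mul_le_mul_of_nonneg_left (hpow j hj) hl0
    have h1 : max Y₀ X₁ ≤ Z j := by
      rw [hZe]
      exact g1.trans (Real.exp_le_exp.2 h0)
    have h2 : Real.log (Z j) ^ (24 / 25 : ℝ) ≤ kt X := by
      rw [hZl]
      exact (Real.rpow_le_rpow (by positivity) (hlj j) (by norm_num)).trans hkt1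
    have h3 : (2 : ℝ) ^ (kt X) ≤ Z j ^ (1 / 8 : ℝ) := by
      rw [hZe, ← Real.exp_mul]
      have h4 : (2 : ℝ) ^ (kt X) ≤ Real.exp (kt X) := by
        have h5 : (2 : ℝ) ≤ Real.exp 1 := by
          have := Real.add_one_le_exp (1 : ℝ)
          linarith
        calc (2 : ℝ) ^ (kt X) ≤ Real.exp 1 ^ (kt X) := pow_le_pow_left₀ (by norm_num) h5 _
          _ = Real.exp (kt X) := by
            rw [← Real.exp_nat_mul, mul_one]
      refine h4.trans (Real.exp_le_exp.2 ?_)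
      have h6 : (1 / 2 : ℝ) ^ jm / 8 * l = l * (1 / 2) ^ jm * (1 / 8) := by ring
      rw [h6] at g4
      linarith
    have h7 := hone (Z j) (kt X) U ((le_max_left _ _).trans h1) hU hrk h2 h3 (by
      intro S hSX hS3
      by_contra hcon
      exact absurd (not_lt.1 hcon) (not_le.2 (hno S j hj (by rw [hSX, hZ])
        (by rw [hSX]; exact (le_max_right _ _).trans h1) hS3)))
    rw [hZh, hZl] at h7
    refine h7.trans ?_
    have h8 : LL (Z j) ≤ l ^ (19 / 20 : ℝ) := by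
      unfold LL
      rw [hZl]
      exact Real.rpow_le_rpow (by positivity) (hlj j) (by norm_num)
    have h9 : A * (13 * K * LL (Z j) + 10) ≤ W := by
      rw [hW]
      refine mul_le_mul_of_nonneg_left ?_ hA0
      have := mul_le_mul_of_nonneg_left h8 (by positivity : (0 : ℝ) ≤ 13 * K)
      linarith
    linarith
  have hZmon : ∀ j, ⌊Z (j + 1)⌋₊ ≤ ⌊Z j⌋₊ := by
    intro j
    apply Nat.floor_le_floor
    rw [hZe, hZe]
    apply Real.exp_le_exp.2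
    have h1 : (1 / 2 : ℝ) ^ (j + 1) ≤ (1 / 2) ^ j :=
      pow_le_pow_of_le_one (by norm_num) (by norm_num) (Nat.le_succ j)
    exact mul_le_mul_of_nonneg_left h1 hl0
  have hclaim : ∀ J : ℕ, J ≤ jm + 1 → ⌊Z J⌋₊ ≤ ⌊Z 0⌋₊ ∧
      ∑ n ∈ Ico ⌊Z J⌋₊ ⌊Z 0⌋₊, U n / n ≤ c / 2 * l * (1 - (1 / 2) ^ J) + J * W := by
    intro J
    induction J with
    | zero =>
      intro _
      simp
    | succ J ih =>
      intro hJ
      obtain ⟨i1, i2⟩ := ih (by omega)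
      refine ⟨(hZmon J).trans i1, ?_⟩
      rw [← Finset.sum_Ico_consecutive _ (hZmon J) i1]
      have h1 := hstep J (by omega)
      have h2 : c / 2 * l * (1 - (1 / 2) ^ (J + 1)) + ((J + 1 : ℕ) : ℝ) * W =
          c / 2 * l * (1 - (1 / 2) ^ J) + J * W + (c / 4 * (l * (1 / 2) ^ J) + W) := by
        push_cast
        ring
      rw [h2]
      linarith
  obtain ⟨-, hsum⟩ := hclaim (jm + 1) le_rfl
  have hZ0 : ⌊Z 0⌋₊ = X := by
    rw [hZ]
    simp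
  rw [hZ0] at hsum
  have hlow : 1 ≤ ⌊Z (jm + 1)⌋₊ := by
    rw [Nat.one_le_floor_iff, hZe]
    linarith
  have hlowX : ⌊Z (jm + 1)⌋₊ ≤ X := by
    rw [← hZ0]
    exact (hclaim (jm + 1) le_rfl).1
  have hsm := SW_U hA0 hU 1 ⌊Z (jm + 1)⌋₊ le_rfl hlow
  have hlogf : Real.log (⌊Z (jm + 1)⌋₊ : ℝ) ≤ l * (1 / 2) ^ (jm + 1) := by
    rw [← hZl]
    refine Real.log_le_log (by exact_mod_cast hlow) (Nat.floor_le ?_)
    rw [hZe]
    exact (Real.exp_pos _).le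
  have hsm2 : ∑ n ∈ Ico 1 ⌊Z (jm + 1)⌋₊, U n / n ≤ A * (1 + l * (1 / 2) ^ (jm + 1)) := by
    refine hsm.trans (mul_le_mul_of_nonneg_left ?_ hA0)
    rw [Nat.cast_one, Real.log_one]
    linarith
  have hX1' : 1 ≤ X := hlow.trans hlowX
  have hlast : U X / X ≤ A := by
    have h1 : (1 : ℝ) ≤ X := by exact_mod_cast hX1'
    calc U X / X ≤ A / X := div_le_div_of_nonneg_right (hU X) (by linarith)
      _ ≤ A := div_le_self hA0 h1
  have htot : lg X U = ∑ n ∈ Ico 1 ⌊Z (jm + 1)⌋₊, U n / n +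
      ∑ n ∈ Ico ⌊Z (jm + 1)⌋₊ X, U n / n + U X / X := by
    unfold lg
    have h1 : Icc 1 X = Ico 1 (X + 1) := by
      ext n
      rw [mem_Icc, mem_Ico]
      omega
    rw [Finset.sum_Ico_consecutive _ hlow hlowX, ← Finset.sum_Ico_succ_top hX1', h1]
  rw [htot] at hlg
  have hAc : A * (l * (1 / 2) ^ (jm + 1)) ≤ c / 8 * l := by
    have h1 : (1 / 2 : ℝ) ^ (jm + 1) ≤ c / (8 * A) := by
      refine le_trans ?_ hjm.le
      exact pow_le_pow_of_le_one (by norm_num) (by norm_num) (Nat.le_succ jm)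
    calc A * (l * (1 / 2) ^ (jm + 1)) ≤ A * (l * (c / (8 * A))) :=
          mul_le_mul_of_nonneg_left (mul_le_mul_of_nonneg_left h1 hl0) hA0
      _ = c / 8 * l := by field_simp
  have hcl : 0 ≤ c / 2 * l * (1 / 2) ^ (jm + 1) := by positivity
  have hWe : ((jm + 1 : ℕ) : ℝ) * W =
      ((jm : ℝ) + 1) * A * (13 * K) * l ^ (19 / 20 : ℝ) + ((jm : ℝ) + 1) * A * 10 := by
    rw [hW]
    push_cast
    ring
  rw [hWe] at hsum
  have hc0 : 0 < c * l := by positivity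
  have e1 : c / 2 * l * (1 - (1 / 2) ^ (jm + 1)) =
      1 / 2 * (c * l) - c / 2 * l * (1 / 2) ^ (jm + 1) := by ring
  have e2 : A * (1 + l * (1 / 2) ^ (jm + 1)) = A + A * (l * (1 / 2) ^ (jm + 1)) := by ring
  rw [e1] at hsum
  rw [e2] at hsm2
  have e3 : c / 8 * l = 1 / 8 * (c * l) := by ring
  have e4 : c / 16 * l = 1 / 16 * (c * l) := by ring
  have e5 : l * (c / 16) = 1 / 16 * (c * l) := by ring
  rw [e3] at hAc
  rw [e4] at g5
  rw [e5] at g6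
  linarith

end Pool.Agent.H4.G3
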